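import Pool.Agent.H5.AA.Glue
import Pool.Agent.H5.HA.Mor

/-!
# Structures composed of chains of cells of bounded rank: one level, countably many types
-/

set_option autoImplicit false

namespace Pool.H5.AA

open Set Ordinal Pool.H62.VT

variable {a : ℕ → ℕ}

/-- `M` is composed of chains of cells of rank less than `ρ` and a rest with few orbits -/
def Dec (M : Str a) (ρ : Ordinal.{0}) : Prop :=
  ∃ (c : ℕ) (E : Set ℕ) (C : Fin c → Set (Finset ℕ)) (lt : Fin c → Finset ℕ → Finset ℕ → Prop)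
    (B : Fin c → Pos → Prop), ST M E C lt B ∧ ∀ j, RkC (C j) (lt j) ρ

/-- one level for all structures composed of chains of cells of rank less than `ρ` -/
theorem dec_level {ρ : Ordinal.{0}} (hρ : ρ < ω₁) : ∃ κ : Ordinal.{0}, κ < ω₁ ∧
    ∀ M : Str a, Dec M ρ → ∀ N : Str a, BF M univ N univ κ ∅ → Iso M univ N univ ∅ := by
  obtain ⟨κ, hκ, hA, -⟩ := Pool.H5.HA.scattered Unit ρ hρ
  have hω : (ω : Ordinal.{0}) < ω₁ := omega_lt_omega_one
  have h1 : (1 : Ordinal.{0}) < ω₁ := one_lt_omega0.trans hω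
  have hlev : lev (κ + 1) < ω₁ := by
    unfold lev
    exact add_lt_omega_one (add_lt_omega_one hω hω)
      (isPrincipal_mul_omega 1 hω (add_lt_omega_one hκ h1))
  obtain ⟨μ, hμ, hmax, hμ1⟩ := good_exists
    (max_lt hlev (add_lt_omega_one (add_lt_omega_one hω hω) hω))
  have hL : Lm μ := by
    refine ⟨lt_of_le_of_lt (le_self_add.trans (le_max_right (lev (κ + 1)) (ω + ω + ω))) hmax, ?_⟩
    intro β hβ
    refine lt_of_le_of_lt ?_ (hμ.2 β hβ)
    gcongr
    exact one_lt_omega0.le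
  refine ⟨μ + ω, add_lt_omega_one hμ1 hω, ?_⟩
  rintro M ⟨c, E, C, lt, B, hS, hR⟩ N hB
  exact glue_iso hS hA hR hL ((le_max_right _ _).trans hmax.le) ((le_max_left _ _).trans hmax.le) hB

/-- Analytic classes of structures composed of chains of cells of bounded rank. -/
theorem dec_countable (K : Set (Str a)) (hK : MeasureTheory.AnalyticSet K) (hn : NoPerf K)
    {ρ : Ordinal.{0}} (hρ : ρ < ω₁) (h : ∀ x ∈ K, Dec x ρ) :
    ∃ C : Set (Str a), C.Countable ∧ ∀ x ∈ K, ∃ c ∈ C, ∃ σ : Equiv.Perm ℕ,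
      ∀ (n : ℕ) (t : Fin (a n) → ℕ), c n (fun i => σ (t i)) = x n t := by
  obtain ⟨κ, hκ, hdet⟩ := dec_level (a := a) hρ
  exact Pool.H5.HA.countable_types K hK hn hκ fun M hM N _ => hdet M (h M hM) N

end Pool.H5.AA
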