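import Pool.Agent.H5.AA.Cop
import Pool.Agent.H5.HA.Scc

/-!
# The chains of cells
-/

set_option autoImplicit false

namespace Pool.H5.AA

open Set Ordinal Pool.H62.VT Pool.H5.HA

variable {a : ℕ → ℕ} {M N : Str a} {E : Set ℕ} {c : ℕ} {C : Fin c → Set (Finset ℕ)}
  {lt : Fin c → Finset ℕ → Finset ℕ → Prop} {B : Fin c → Pos → Prop} {pe p p' : Pos} {j : Fin c} {S T S' T' : Finset ℕ}

/-- the cells of a family as a type -/
@[ext]
structure Pf (C : Set (Finset ℕ)) : Type where
  /-- the cell -/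
  val : Finset ℕ
  /-- it is a cell -/
  mem : val ∈ C

/-- the linear order of a family of cells -/
noncomputable abbrev ordC (C : Set (Finset ℕ)) (lt : Finset ℕ → Finset ℕ → Prop)
    (irr : ∀ S ∈ C, ¬ lt S S) (tr : ∀ S ∈ C, ∀ T ∈ C, ∀ U ∈ C, lt S T → lt T U → lt S U)
    (tot : ∀ S ∈ C, ∀ T ∈ C, S ≠ T → lt S T ∨ lt T S) : LinearOrder (Pf C) where
  le x y := x = y ∨ lt x.1 y.1
  lt x y := lt x.1 y.1
  le_refl x := Or.inl rfl
  le_trans x y z h1 h2 := by
    rcases h1 with rfl | h1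
    · exact h2
    · rcases h2 with rfl | h2
      · exact Or.inr h1
      · exact Or.inr (tr _ x.2 _ y.2 _ z.2 h1 h2)
  lt_iff_le_not_ge x y := by
    constructor
    · intro h
      refine ⟨Or.inr h, ?_⟩
      rintro (h2 | h2)
      · subst h2
        exact irr _ y.2 h
      · exact irr _ x.2 (tr _ x.2 _ y.2 _ x.2 h h2)
    · rintro ⟨h1 | h1, h2⟩
      · exact absurd (Or.inl h1.symm) h2
      · exact h1
  le_antisymm x y h1 h2 := by
    rcases h1 with h1 | h1
    · exact h1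
    · rcases h2 with h2 | h2
      · exact h2.symm
      · exact absurd (tr _ x.2 _ y.2 _ x.2 h1 h2) (irr _ x.2)
  le_total x y := by
    by_cases h : x = y
    · exact Or.inl (Or.inl h)
    · rcases tot _ x.2 _ y.2 (fun h2 => h (Pf.ext h2)) with h1 | h1
      · exact Or.inl (Or.inr h1)
      · exact Or.inr (Or.inr h1)
  toDecidableLE := Classical.decRel _
  toDecidableEq := Classical.decEq _
  toDecidableLT := Classical.decRel _

/-- the rank of the chain of cells is less than `ρ` -/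
def RkC (C : Set (Finset ℕ)) (lt : Finset ℕ → Finset ℕ → Prop) (ρ : Ordinal.{0}) : Prop :=
  ∀ (irr : ∀ S ∈ C, ¬ lt S S) (tr : ∀ S ∈ C, ∀ T ∈ C, ∀ U ∈ C, lt S T → lt T U → lt S U)
    (tot : ∀ S ∈ C, ∀ T ∈ C, S ≠ T → lt S T ∨ lt T S),
    letI := ordC C lt irr tr tot
    ¬ Rk ρ (Set.univ : Set (Pf C))

/-- the levels -/
noncomputable def lev (κ : Ordinal.{0}) : Ordinal.{0} := (ω + ω) + ω * κ

theorem lev_step {ι κ : Ordinal.{0}} (h : ι < κ) : lev ι + ω ≤ lev κ := by
  unfold lev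
  rw [add_assoc, ← mul_add_one]
  gcongr
  exact Order.add_one_le_of_lt h

theorem lev_ge (κ : Ordinal.{0}) : ω + ω ≤ lev κ := le_self_add

/-- the cells between given cells, left -/
def XC (C : Set (Finset ℕ)) (lt : Finset ℕ → Finset ℕ → Prop) (P Q : Set (Finset ℕ × Finset ℕ)) :
    Set (Pf C) :=
  {z | (∀ r ∈ P, lt r.1 z.1) ∧ ∀ r ∈ Q, lt z.1 r.1}

/-- the cells between given cells, right -/
def YC (C : Set (Finset ℕ)) (lt : Finset ℕ → Finset ℕ → Prop) (P Q : Set (Finset ℕ × Finset ℕ)) :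
    Set (Pf C) :=
  {z | (∀ r ∈ P, lt r.2 z.1) ∧ ∀ r ∈ Q, lt z.1 r.2}

theorem E_of_BFc (hS : ST M E C lt B) (hb : Bas E pe) (hB0 : BF M univ N univ (ω + ω) pe)
    (j : Fin c) (κ : Ordinal.{0}) :
    letI := ordC (C j) (lt j) (hS.irr j) (hS.tr j) (hS.tot j)
    letI := ordC (CC M N (C j) pe) (LC M N (C j) (lt j) pe) (fun S h => lc_irr hS hb hB0 h)
      (fun S h1 T h2 U h3 => lc_tr hS hb hB0 h1 h2 h3) (fun S h1 T h2 => lc_tot hS hb hB0 h1 h2)
    ∀ (q : Pos) (P Q : Set (Finset ℕ × Finset ℕ)), pe ⊆ q →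
      (∀ r ∈ P ∪ Q, r.1 ∈ C j ∧ Mt q (r.1 : Set ℕ) (r.2 : Set ℕ)) →
      BF M univ N univ (lev κ) q →
      Pool.H5.HA.E (fun _ : Pf (C j) => ()) (fun _ : Pf (CC M N (C j) pe) => ()) κ
        (XC (C j) (lt j) P Q) (YC (CC M N (C j) pe) (LC M N (C j) (lt j) pe) P Q) := by
  letI := ordC (C j) (lt j) (hS.irr j) (hS.tr j) (hS.tot j)
  letI := ordC (CC M N (C j) pe) (LC M N (C j) (lt j) pe) (fun S h => lc_irr hS hb hB0 h)
      (fun S h1 T h2 U h3 => lc_tr hS hb hB0 h1 h2 h3) (fun S h1 T h2 => lc_tot hS hb hB0 h1 h2)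
  induction κ using WellFoundedLT.induction with
  | ind κ ih =>
    intro q P Q hpq hPQ hB
    rw [E_iff]
    intro ι hι
    have hω : (ω : Ordinal.{0}) ≤ lev ι := le_self_add.trans (lev_ge ι)
    have key : ∀ (x : Pf (C j)) (y : Pf (CC M N (C j) pe)) (q' : Pos), q ⊆ q' →
        Mt q' (x.1 : Set ℕ) (y.1 : Set ℕ) → BF M univ N univ (lev ι) q' →
        (x ∈ XC (C j) (lt j) P Q ↔ y ∈ YC (CC M N (C j) pe) (LC M N (C j) (lt j) pe) P Q) ∧
        Pool.H5.HA.E (fun _ : Pf (C j) => ()) (fun _ : Pf (CC M N (C j) pe) => ()) ι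
          (XC (C j) (lt j) P Q ∩ Iio x)
          (YC (CC M N (C j) pe) (LC M N (C j) (lt j) pe) P Q ∩ Iio y) ∧
        Pool.H5.HA.E (fun _ : Pf (C j) => ()) (fun _ : Pf (CC M N (C j) pe) => ()) ι
          (XC (C j) (lt j) P Q ∩ Ioi x)
          (YC (CC M N (C j) pe) (LC M N (C j) (lt j) pe) P Q ∩ Ioi y) := by
      intro x y q' hqq hm h1
      have hw : BF M univ N univ ω q' := h1.level hω
      have hp' : pe ⊆ q' := hpq.trans hqq
      have hPQ' : ∀ r ∈ P ∪ Q, r.1 ∈ C j ∧ Mt q' (r.1 : Set ℕ) (r.2 : Set ℕ) := fun r hr =>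
        ⟨(hPQ r hr).1, (hPQ r hr).2.mono hqq⟩
      refine ⟨?_, ?_, ?_⟩
      · constructor
        · rintro ⟨h2, h3⟩
          refine ⟨fun r hr => ?_, fun r hr => ?_⟩
          · have g := hPQ' r (Or.inl hr)
            exact (lc_iff hS hb hw hp' g.1 x.2 g.2 hm).2 (h2 r hr)
          · have g := hPQ' r (Or.inr hr)
            exact (lc_iff hS hb hw hp' x.2 g.1 hm g.2).2 (h3 r hr)
        · rintro ⟨h2, h3⟩
          refine ⟨fun r hr => ?_, fun r hr => ?_⟩
          · have g := hPQ' r (Or.inl hr)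
            exact (lc_iff hS hb hw hp' g.1 x.2 g.2 hm).1 (h2 r hr)
          · have g := hPQ' r (Or.inr hr)
            exact (lc_iff hS hb hw hp' x.2 g.1 hm g.2).1 (h3 r hr)
      · have h4 := ih ι hι q' P (insert (x.1, y.1) Q) hp' (by
          rintro r (hr | rfl | hr)
          · exact hPQ' r (Or.inl hr)
          · exact ⟨x.2, hm⟩
          · exact hPQ' r (Or.inr hr)) h1
        have e1 : XC (C j) (lt j) P Q ∩ Iio x = XC (C j) (lt j) P (insert (x.1, y.1) Q) := by
          ext z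
          constructor
          · rintro ⟨⟨h5, h6⟩, h7⟩
            refine ⟨h5, fun r hr => ?_⟩
            rcases hr with rfl | hr
            · exact h7
            · exact h6 r hr
          · rintro ⟨h5, h6⟩
            exact ⟨⟨h5, fun r hr => h6 r (Or.inr hr)⟩, h6 _ (Or.inl rfl)⟩
        have e3 : YC (CC M N (C j) pe) (LC M N (C j) (lt j) pe) P Q ∩ Iio y =
            YC (CC M N (C j) pe) (LC M N (C j) (lt j) pe) P (insert (x.1, y.1) Q) := by
          ext z
          constructor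
          · rintro ⟨⟨h5, h6⟩, h7⟩
            refine ⟨h5, fun r hr => ?_⟩
            rcases hr with rfl | hr
            · exact h7
            · exact h6 r hr
          · rintro ⟨h5, h6⟩
            exact ⟨⟨h5, fun r hr => h6 r (Or.inr hr)⟩, h6 _ (Or.inl rfl)⟩
        rw [e1, e3]
        exact h4
      · have h4 := ih ι hι q' (insert (x.1, y.1) P) Q hp' (by
          rintro r ((rfl | hr) | hr)
          · exact ⟨x.2, hm⟩
          · exact hPQ' r (Or.inl hr)
          · exact hPQ' r (Or.inr hr)) h1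
        have e1 : XC (C j) (lt j) P Q ∩ Ioi x = XC (C j) (lt j) (insert (x.1, y.1) P) Q := by
          ext z
          constructor
          · rintro ⟨⟨h5, h6⟩, h7⟩
            refine ⟨fun r hr => ?_, h6⟩
            rcases hr with rfl | hr
            · exact h7
            · exact h5 r hr
          · rintro ⟨h5, h6⟩
            exact ⟨⟨fun r hr => h5 r (Or.inr hr), h6⟩, h5 _ (Or.inl rfl)⟩
        have e3 : YC (CC M N (C j) pe) (LC M N (C j) (lt j) pe) P Q ∩ Ioi y =
            YC (CC M N (C j) pe) (LC M N (C j) (lt j) pe) (insert (x.1, y.1) P) Q := by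
          ext z
          constructor
          · rintro ⟨⟨h5, h6⟩, h7⟩
            refine ⟨fun r hr => ?_, h6⟩
            rcases hr with rfl | hr
            · exact h7
            · exact h5 r hr
          · rintro ⟨h5, h6⟩
            exact ⟨⟨fun r hr => h5 r (Or.inr hr), h6⟩, h5 _ (Or.inl rfl)⟩
        rw [e1, e3]
        exact h4
    constructor
    · intro x hx
      obtain ⟨f, hf, hm⟩ := forth_set (hB.level (lev_step hι)) x.1
      have hm1 := hm x.1 subset_rfl
      have hy : x.1.image f ∈ CC M N (C j) pe :=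
        (cc_iff hS hb (hf.level hω) (hpq.trans subset_union_left) hm1).2 x.2
      obtain ⟨k1, k2, k3⟩ := key x ⟨_, hy⟩ _ subset_union_left hm1 hf
      exact ⟨⟨_, hy⟩, k1.1 hx, rfl, k2, k3⟩
    · intro y hy
      obtain ⟨f, hf, hm⟩ := back_set' (hB.level (lev_step hι)) y.1
      have hm1 := hm y.1 subset_rfl
      have hx : y.1.image f ∈ C j :=
        (cc_iff hS hb (hf.level hω) (hpq.trans subset_union_left) hm1).1 y.2
      obtain ⟨k1, k2, k3⟩ := key ⟨_, hx⟩ y _ subset_union_left hm1 hf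
      exact ⟨⟨_, hx⟩, k1.2 hy, rfl, k2, k3⟩

/-- The chains of cells are isomorphic. -/
theorem chain_iso (hS : ST M E C lt B) (hb : Bas E pe) {ρ κ : Ordinal.{0}} (hA : AllD Unit ρ κ)
    (j : Fin c) (hR : RkC (C j) (lt j) ρ) (hB : BF M univ N univ (lev (κ + 1)) pe) :
    ∃ f : Finset ℕ → Finset ℕ, (∀ S ∈ C j, f S ∈ CC M N (C j) pe) ∧
      (∀ S' ∈ CC M N (C j) pe, ∃ S ∈ C j, f S = S') ∧
      ∀ S ∈ C j, ∀ T ∈ C j, lt j S T → LC M N (C j) (lt j) pe (f S) (f T) := by
  classical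
  have hB0 : BF M univ N univ (ω + ω) pe := hB.level (lev_ge _)
  letI := ordC (C j) (lt j) (hS.irr j) (hS.tr j) (hS.tot j)
  letI := ordC (CC M N (C j) pe) (LC M N (C j) (lt j) pe) (fun S h => lc_irr hS hb hB0 h)
      (fun S h1 T h2 U h3 => lc_tr hS hb hB0 h1 h2 h3) (fun S h1 T h2 => lc_tot hS hb hB0 h1 h2)
  rcases (CC M N (C j) pe).eq_empty_or_nonempty with he | hne
  · refine ⟨id, ?_, ?_, ?_⟩
    · intro S hSC
      exfalso
      have hlt : lev κ + ω ≤ lev (κ + 1) := lev_step (by simp)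
      obtain ⟨f, hf, hm⟩ := forth_set (hB.level hlt) S
      have := (cc_iff (j := j) hS hb (hf.level (le_self_add.trans (lev_ge κ))) subset_union_left
        (hm S subset_rfl)).2 hSC
      rw [he] at this
      exact this
    · intro S' hS'
      rw [he] at hS'
      exact absurd hS' (notMem_empty _)
    · intro S hSC
      exfalso
      have hlt : lev κ + ω ≤ lev (κ + 1) := lev_step (by simp)
      obtain ⟨f, hf, hm⟩ := forth_set (hB.level hlt) S
      have := (cc_iff (j := j) hS hb (hf.level (le_self_add.trans (lev_ge κ))) subset_union_left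
        (hm S subset_rfl)).2 hSC
      rw [he] at this
      exact this
  · have : Nonempty (Pf (CC M N (C j) pe)) := ⟨⟨hne.some, hne.some_mem⟩⟩
    have hlev : lev κ ≤ lev (κ + 1) := le_self_add.trans (lev_step (show κ < κ + 1 by simp))
    have hE := E_of_BFc hS hb hB0 j κ pe ∅ ∅ subset_rfl (by simp) (hB.level hlev)
    have e1 : XC (C j) (lt j) ∅ ∅ = Set.univ := by
      ext z
      simp [XC]
    have e3 : YC (CC M N (C j) pe) (LC M N (C j) (lt j) pe) ∅ ∅ = Set.univ := by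
      ext z
      simp [YC]
    rw [e1, e3] at hE
    obtain ⟨f, hf, hm, -⟩ := hA (Pf (C j)) (fun _ => ()) Set.univ
      (hR (hS.irr j) (hS.tr j) (hS.tot j)) (Pf (CC M N (C j) pe)) (fun _ => ()) Set.univ hE
    refine ⟨fun S => if h : S ∈ C j then (f ⟨S, h⟩).1 else S, ?_, ?_, ?_⟩
    · intro S hSC
      simp only [dif_pos hSC]
      exact (f ⟨S, hSC⟩).2
    · intro S' hS'
      obtain ⟨x, -, hx⟩ := hf.surjOn (mem_univ (⟨S', hS'⟩ : Pf (CC M N (C j) pe)))
      refine ⟨x.1, x.2, ?_⟩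
      simp only [dif_pos x.2]
      exact congrArg Pf.val hx
    · intro S hSC T hTC hlt
      simp only [dif_pos hSC, dif_pos hTC]
      exact hm (mem_univ (⟨S, hSC⟩ : Pf (C j))) (mem_univ (⟨T, hTC⟩ : Pf (C j))) hlt

end Pool.H5.AA
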