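import Pool.Agent.H5.AA.Cel
import Pool.Agent.H5.AA.Chn

/-!
# Structures composed of chains of cells are determined by the back and forth class
-/

set_option autoImplicit false

namespace Pool.H5.AA

open Set Ordinal Pool.H62.VT

variable {a : ℕ → ℕ} {M N : Str a} {E : Set ℕ} {c : ℕ} {C : Fin c → Set (Finset ℕ)}
  {lt : Fin c → Finset ℕ → Finset ℕ → Prop} {B : Fin c → Pos → Prop} {pe p p' : Pos} {j : Fin c} {S T S' T' : Finset ℕ}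

/-- a total partial isomorphism is an isomorphism -/
theorem iso_of_total {P : Pos} (hP : PI M N P) (h1 : ∀ x, ∃ y, (x, y) ∈ P) (h2 : ∀ y, ∃ x, (x, y) ∈ P)
    {q : Pos} (hq : q ⊆ P) : Iso M univ N univ q := by
  choose g hg using h1
  refine ⟨g, ⟨fun x _ => mem_univ _, ?_, ?_⟩, ?_, ?_⟩
  · intro x _ y _ hxy
    exact (hP.2 _ (hg x) _ (hg y)).2 hxy
  · intro y _
    obtain ⟨x, hx⟩ := h2 y
    exact ⟨x, mem_univ _, (hP.2 _ (hg x) _ hx).1 rfl⟩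
  · intro n t _
    exact (hP.1 n (fun i => (t i, g (t i))) fun i => hg (t i)).symm
  · intro r hr
    exact (hP.2 _ (hg r.1) _ (hq hr)).1 rfl

/-- the match of a cell and a transported cell -/
theorem cell_match (hS : ST M E C lt B) (h1 : S ∈ C j) (h2 : S' ∈ CC M N (C j) pe) :
    ∃ b : Pos, MtS b S S' ∧ BN M N (C j) (B j) pe S S' b := by
  obtain ⟨S1, hS1, p1, hB1, hp1, hm1⟩ := h2
  obtain ⟨b1, hb1, hBb⟩ := hS.hom j S h1 S1 hS1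
  refine ⟨{q | q.2 ∈ S' ∧ ∃ y, (q.1, y) ∈ b1 ∧ (y, q.2) ∈ p1}, ⟨?_, ?_, ?_⟩,
    S1, hS1, b1, p1, hb1, hBb, hB1, hp1, hm1, rfl⟩
  · rintro q ⟨hq, y, hy, -⟩
    exact ⟨(hb1.1 _ hy).1, hq⟩
  · intro x hx
    obtain ⟨y, hy, hxy⟩ := hb1.2.1 x hx
    obtain ⟨z, hz, hyz⟩ := hm1.1 y hy
    exact ⟨z, hz, hz, y, hxy, hyz⟩
  · intro z hz
    obtain ⟨y, hy, hyz⟩ := hm1.2 z hz
    obtain ⟨x, hx, hxy⟩ := hb1.2.2 y hy
    exact ⟨x, hx, hz, y, hxy, hyz⟩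

/-- Structures composed of chains of cells are determined by the back and forth class. -/
theorem glue_iso (hS : ST M E C lt B) {ρ κ : Ordinal.{0}} (hA : Pool.H5.HA.AllD Unit ρ κ)
    (hR : ∀ j, RkC (C j) (lt j) ρ) {μ : Ordinal.{0}} (hμ : Lm μ) (hμ2 : ω + ω + ω ≤ μ)
    (hμ3 : lev (κ + 1) ≤ μ) (hB : BF M univ N univ (μ + ω) ∅) : Iso M univ N univ ∅ := by
  classical
  obtain ⟨f0, -, h0⟩ := hB.forth_omega hS.finE (subset_univ _) 0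
  simp only [Nat.cast_zero, add_zero, empty_union] at h0
  set pe : Pos := gr f0 E with hpe
  have hb : Bas E pe := ⟨fun q hq => hq.1, fun x hx => ⟨f0 x, hx, rfl⟩⟩
  have hww : BF M univ N univ (ω + ω) pe := h0.level hμ.1.le
  obtain ⟨P0, hP1, hP2, hP3⟩ := cell_iso hS hb hμ h0
  have hc := fun j => chain_iso hS hb hA j (hR j) (h0.level hμ3)
  choose f hf1 hf2 hf3 using hc
  have hcell : ∀ (i : Σ j : Fin c, Pf (C j)), ∃ b : Pos, MtS b i.2.1 (f i.1 i.2.1) ∧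
      BN M N (C i.1) (B i.1) pe i.2.1 (f i.1 i.2.1) b := fun i =>
        cell_match hS i.2.2 (hf1 i.1 _ i.2.2)
  choose b hb1 hb2 using hcell
  have hPI : PI M N (pe ∪ P0 ∪ ⋃ i, b i) := by
    refine free_N hS hb (h0.level hμ2) P0 (Σ j : Fin c, Pf (C j)) (fun i => i.1) (fun i => i.2.1)
      (fun i => f i.1 i.2.1) b hP3 hP1 (fun i => ⟨i.2.2, hf1 i.1 _ i.2.2, hb1 i, hb2 i⟩) ?_ ?_
    · rintro ⟨i, S, hSi⟩ ⟨i', S', hSi'⟩ hne heq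
      simp only at heq
      subst heq
      obtain ⟨x, hx⟩ := hS.ne i S hSi
      obtain ⟨rfl, -⟩ := hS.dj i i' S S hSi hSi' ⟨x, hx, hx⟩
      exact hne rfl
    · rintro ⟨i, S, hSi⟩ ⟨i', S', hSi'⟩ heq hlt
      simp only at heq
      subst heq
      exact hf3 i S hSi S' hSi' hlt
  refine iso_of_total hPI ?_ ?_ (empty_subset _)
  · intro x
    by_cases hx : x ∈ E
    · exact ⟨f0 x, Or.inl (Or.inl ⟨hx, rfl⟩)⟩
    · by_cases hx2 : ∃ j, ∃ S ∈ C j, x ∈ S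
      · obtain ⟨j, S, hSj, hxS⟩ := hx2
        obtain ⟨y, -, hy⟩ := (hb1 ⟨j, S, hSj⟩).2.1 x hxS
        exact ⟨y, Or.inr (mem_iUnion.2 ⟨_, hy⟩)⟩
      · obtain ⟨y, -, hy⟩ := hP2.1 x ⟨hx, fun j S hSj hxS => hx2 ⟨j, S, hSj, hxS⟩⟩
        exact ⟨y, Or.inl (Or.inr hy)⟩
  · intro y
    by_cases hx : ∃ x, (x, y) ∈ pe
    · obtain ⟨x, hx⟩ := hx
      exact ⟨x, Or.inl (Or.inl hx)⟩
    · by_cases hx2 : ∃ j, ∃ S ∈ CC M N (C j) pe, y ∈ S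
      · obtain ⟨j, S', hSj, hyS⟩ := hx2
        obtain ⟨S, hSC, rfl⟩ := hf2 j S' hSj
        obtain ⟨x, -, hx⟩ := (hb1 ⟨j, S, hSC⟩).2.2 y hyS
        exact ⟨x, Or.inr (mem_iUnion.2 ⟨_, hx⟩)⟩
      · obtain ⟨x, -, hx⟩ := hP2.2 y ⟨fun x h => hx ⟨x, h⟩, fun j S hSj hyS => hx2 ⟨j, S, hSj, hyS⟩⟩
        exact ⟨x, Or.inl (Or.inr hx)⟩

end Pool.H5.AA
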