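import Pool.Agent.H5.AA.Fre

/-!
# The rest: finitely many orbits
-/

set_option autoImplicit false

namespace Pool.H5.AA

open Set Ordinal Pool.H62.VT

variable {a : ℕ → ℕ} {M N : Str a} {E : Set ℕ} {c : ℕ} {C : Fin c → Set (Finset ℕ)}
  {lt : Fin c → Finset ℕ → Finset ℕ → Prop} {B : Fin c → Pos → Prop} {pe p p' : Pos} {j : Fin c} {S T S' T' : Finset ℕ}
  {k : ℕ} {μ β γ : Ordinal.{0}}

/-- the position matching two tuples -/
def tp {k : ℕ} (x y : Fin k → ℕ) : Pos := {q | ∃ i, q = (x i, y i)}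

theorem tp_cons (x y : Fin k → ℕ) (v w : ℕ) :
    tp (Fin.cons v x : Fin (k + 1) → ℕ) (Fin.cons w y) = insert (v, w) (tp x y) := by
  ext q
  constructor
  · rintro ⟨i, rfl⟩
    refine Fin.cases ?_ (fun i => ?_) i
    · exact Or.inl rfl
    · exact Or.inr ⟨i, rfl⟩
  · rintro (rfl | ⟨i, rfl⟩)
    · exact ⟨0, rfl⟩
    · exact ⟨i.succ, rfl⟩

/-- `μ` is closed under successors -/
def Lm (μ : Ordinal.{0}) : Prop := ω + ω < μ ∧ ∀ β < μ, β + 1 < μ

/-- isolation of the classes of tuples of the rest -/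
theorem isol (hS : ST M E C lt B) (hμ : Lm μ) (k : ℕ) : ∃ β < μ, ∀ x y : Fin k → ℕ,
    (∀ i, x i ∈ D0 E C) → (∀ i, y i ∈ D0 E C) → BF M univ M univ β (idOn E ∪ tp x y) →
      BF M univ M univ μ (idOn E ∪ tp x y) := by
  obtain ⟨R, hR, h1⟩ := hS.cel k
  have h0 : 0 < μ := lt_of_le_of_lt zero_le hμ.1
  have hex : ∀ r : (Fin k → ℕ) × (Fin k → ℕ), ∃ β < μ, BF M univ M univ β (idOn E ∪ tp r.1 r.2) →
      BF M univ M univ μ (idOn E ∪ tp r.1 r.2) := by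
    intro r
    by_contra hcon
    push Not at hcon
    have h3 : BF M univ M univ μ (idOn E ∪ tp r.1 r.2) := BF_limit h0 hμ.2 fun β hβ => (hcon β hβ).1
    exact (hcon 0 h0).2 h3
  choose g hg1 hg2 using hex
  have hfin : (R ×ˢ R).Finite := hR.prod hR
  obtain ⟨β, hβ, hb⟩ : ∃ β < μ, ∀ r ∈ R ×ˢ R, g r ≤ β := by
    rcases (R ×ˢ R).eq_empty_or_nonempty with he | hne
    · exact ⟨0, h0, fun r hr => absurd hr (by rw [he]; exact notMem_empty _)⟩
    · obtain ⟨r0, hr0, hmax⟩ := Set.exists_max_image (R ×ˢ R) g hfin hne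
      exact ⟨g r0, hg1 r0, hmax⟩
  refine ⟨β, hβ, ?_⟩
  intro x y hx hy hB
  obtain ⟨r, hr, hxr⟩ := h1 x hx
  obtain ⟨r', hr', hyr⟩ := h1 y hy
  have hxr' : ∀ α, BF M univ M univ α (idOn E ∪ tp x r) := fun α =>
    Iso.bf hxr fun q _ => ⟨mem_univ _, mem_univ _⟩
  have hyr' : ∀ α, BF M univ M univ α (idOn E ∪ tp y r') := fun α =>
    Iso.bf hyr fun q _ => ⟨mem_univ _, mem_univ _⟩
  have h2 : BF M univ M univ β (idOn E ∪ tp r r') := by
    refine (((hxr' β).symm.trans hB).trans (hyr' β)).mono ?_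
    rintro q (⟨hq1, hq2⟩ | ⟨i, rfl⟩)
    · have e : q = (q.1, q.1) := Prod.ext rfl hq2.symm
      rw [e]
      exact ⟨q.1, ⟨q.1, Or.inl ⟨hq1, rfl⟩, Or.inl ⟨hq1, rfl⟩⟩, Or.inl ⟨hq1, rfl⟩⟩
    · exact ⟨y i, ⟨x i, Or.inr ⟨i, rfl⟩, Or.inr ⟨i, rfl⟩⟩, Or.inr ⟨i, rfl⟩⟩
  have h3 := hg2 (r, r') (h2.level (hb (r, r') ⟨hr, hr'⟩))
  refine (((hxr' μ).trans h3).trans (hyr' μ).symm).mono ?_
  rintro q (⟨hq1, hq2⟩ | ⟨i, rfl⟩)
  · have e : q = (q.1, q.1) := Prod.ext rfl hq2.symm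
    rw [e]
    exact ⟨q.1, ⟨q.1, Or.inl ⟨hq1, rfl⟩, Or.inl ⟨hq1, rfl⟩⟩, Or.inl ⟨hq1, rfl⟩⟩
  · exact ⟨r' i, ⟨r i, Or.inr ⟨i, rfl⟩, Or.inr ⟨i, rfl⟩⟩, Or.inr ⟨i, rfl⟩⟩

/-- a good answer is good at level `μ` -/
theorem lift (hS : ST M E C lt B) (hb : Bas E pe) (hμ : Lm μ) {x x' : Fin k → ℕ} {v v' : ℕ}
    (hx : ∀ i, x i ∈ D0 E C) (hv : v ∈ D0 E C) (hB : BF M univ N univ μ (pe ∪ tp x x'))
    (hβ : β < μ) (hβ2 : ω + ω ≤ β)
    (hiso : ∀ y z : Fin (k + 1) → ℕ, (∀ i, y i ∈ D0 E C) → (∀ i, z i ∈ D0 E C) →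
      BF M univ M univ β (idOn E ∪ tp y z) → BF M univ M univ μ (idOn E ∪ tp y z))
    (h1 : BF M univ N univ β (insert (v, v') (pe ∪ tp x x'))) :
    BF M univ N univ μ (insert (v, v') (pe ∪ tp x x')) := by
  have h0 : 0 < μ := lt_of_le_of_lt zero_le hμ.1
  apply BF_limit h0 hμ.2
  intro γ hγ
  obtain ⟨w, -, h2⟩ := hB.back (max_lt hβ hγ) (mem_univ v')
  have hsub : pe ⊆ insert (v, v') (pe ∪ tp x x') := fun q hq => Or.inr (Or.inl hq)
  have hsub' : pe ⊆ insert (w, v') (pe ∪ tp x x') := fun q hq => Or.inr (Or.inl hq)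
  have hv' : v' ∈ D0' M N C pe :=
    (d0_iff hS hb (h1.level hβ2) hsub (Or.inl rfl)).1 hv
  have hw : w ∈ D0 E C :=
    (d0_iff hS hb (h2.level (hβ2.trans (le_max_left _ _))) hsub' (Or.inl rfl)).2 hv'
  have h3 : BF M univ M univ β (idOn E ∪ tp (Fin.cons v x : Fin (k + 1) → ℕ) (Fin.cons w x)) := by
    rw [tp_cons]
    refine (h1.trans (h2.level (le_max_left _ _)).symm).mono ?_
    rintro q (hq | rfl | ⟨i, rfl⟩)
    · exact id_comp hb hsub hsub' hq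
    · exact ⟨v', Or.inl rfl, Or.inl rfl⟩
    · exact ⟨x' i, Or.inr (Or.inr ⟨i, rfl⟩), Or.inr (Or.inr ⟨i, rfl⟩)⟩
  have h4 := hiso _ _ (by
    intro i
    refine Fin.cases ?_ (fun i => ?_) i
    · exact hv
    · exact hx i) (by
    intro i
    refine Fin.cases ?_ (fun i => ?_) i
    · exact hw
    · exact hx i) h3
  rw [tp_cons] at h4
  refine ((h4.level hγ.le).trans (h2.level (le_max_right _ _))).mono ?_
  rintro q (rfl | hq | ⟨i, rfl⟩)
  · exact ⟨w, Or.inr (Or.inl rfl), Or.inl rfl⟩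
  · refine ⟨q.1, Or.inl ⟨hb.1 q hq, rfl⟩, Or.inr (Or.inl hq)⟩
  · exact ⟨x i, Or.inr (Or.inr ⟨i, rfl⟩), Or.inr (Or.inr ⟨i, rfl⟩)⟩

/-- states of the construction -/
structure Stt (M N : Str a) (E : Set ℕ) (C : Fin c → Set (Finset ℕ)) (pe : Pos) (μ : Ordinal.{0}) where
  k : ℕ
  x : Fin k → ℕ
  x' : Fin k → ℕ
  hx : ∀ i, x i ∈ D0 E C
  hB : BF M univ N univ μ (pe ∪ tp x x')

theorem step_state (hS : ST M E C lt B) (hb : Bas E pe) (hμ : Lm μ) (s : Stt M N E C pe μ) (n : ℕ) :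
    ∃ s' : Stt M N E C pe μ, tp s.x s.x' ⊆ tp s'.x s'.x' ∧
      (n ∈ D0 E C → ∃ y, (n, y) ∈ tp s'.x s'.x') ∧
      (n ∈ D0' M N C pe → ∃ y, (y, n) ∈ tp s'.x s'.x') := by
  -- forth
  have h1 : ∃ s1 : Stt M N E C pe μ, tp s.x s.x' ⊆ tp s1.x s1.x' ∧
      (n ∈ D0 E C → ∃ y, (n, y) ∈ tp s1.x s1.x') := by
    by_cases hn : n ∈ D0 E C
    · obtain ⟨β0, hβ0, hiso⟩ := isol hS hμ (s.k + 1)
      have hlt : max β0 (ω + ω) < μ := max_lt hβ0 hμ.1
      obtain ⟨v', -, h3⟩ := s.hB.forth hlt (mem_univ n)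
      have h4 := lift hS hb hμ s.hx hn s.hB hlt (le_max_right _ _)
        (fun y z hy hz hyz => hiso y z hy hz (hyz.level (le_max_left _ _))) h3
      refine ⟨⟨s.k + 1, Fin.cons n s.x, Fin.cons v' s.x', ?_, ?_⟩, ?_, fun _ => ⟨v', ?_⟩⟩
      · intro i
        refine Fin.cases ?_ (fun i => ?_) i
        · exact hn
        · exact s.hx i
      · rw [tp_cons]
        refine h4.mono ?_
        rintro q (hq | rfl | hq)
        · exact Or.inr (Or.inl hq)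
        · exact Or.inl rfl
        · exact Or.inr (Or.inr hq)
      · rw [tp_cons]
        exact subset_insert _ _
      · rw [tp_cons]
        exact mem_insert _ _
    · exact ⟨s, subset_rfl, fun h => absurd h hn⟩
  obtain ⟨s1, hs1, hs1'⟩ := h1
  by_cases hn : n ∈ D0' M N C pe
  · obtain ⟨β0, hβ0, hiso⟩ := isol hS hμ (s1.k + 1)
    have hlt : max β0 (ω + ω) < μ := max_lt hβ0 hμ.1
    obtain ⟨v, -, h3⟩ := s1.hB.back hlt (mem_univ n)
    have hsub : pe ⊆ insert (v, n) (pe ∪ tp s1.x s1.x') := fun q hq => Or.inr (Or.inl hq)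
    have hv : v ∈ D0 E C := (d0_iff hS hb (h3.level (le_max_right _ _)) hsub (Or.inl rfl)).2 hn
    have h4 := lift hS hb hμ s1.hx hv s1.hB hlt (le_max_right _ _)
      (fun y z hy hz hyz => hiso y z hy hz (hyz.level (le_max_left _ _))) h3
    refine ⟨⟨s1.k + 1, Fin.cons v s1.x, Fin.cons n s1.x', ?_, ?_⟩, ?_, ?_, fun _ => ⟨v, ?_⟩⟩
    · intro i
      refine Fin.cases ?_ (fun i => ?_) i
      · exact hv
      · exact s1.hx i
    · rw [tp_cons]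
      refine h4.mono ?_
      rintro q (hq | rfl | hq)
      · exact Or.inr (Or.inl hq)
      · exact Or.inl rfl
      · exact Or.inr (Or.inr hq)
    · rw [tp_cons]
      exact hs1.trans (subset_insert _ _)
    · intro h
      obtain ⟨y, hy⟩ := hs1' h
      rw [tp_cons]
      exact ⟨y, Or.inr hy⟩
    · rw [tp_cons]
      exact mem_insert _ _
  · exact ⟨s1, hs1, hs1', fun h => absurd h hn⟩

/-- The rests are isomorphic over `E`. -/
theorem cell_iso (hS : ST M E C lt B) (hb : Bas E pe) (hμ : Lm μ) (hB : BF M univ N univ μ pe) :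
    ∃ P : Pos, (∀ q ∈ P, q.1 ∈ D0 E C ∧ q.2 ∈ D0' M N C pe) ∧ Mt P (D0 E C) (D0' M N C pe) ∧
      PI M N (pe ∪ P) := by
  have s0 : Stt M N E C pe μ := ⟨0, Fin.elim0, Fin.elim0, fun i => i.elim0, hB.mono (by
    rintro q (hq | ⟨i, -⟩)
    · exact hq
    · exact i.elim0)⟩
  choose nx h1 h2 h3 using fun (s : Stt M N E C pe μ) (n : ℕ) => step_state hS hb hμ s n
  let s : ℕ → Stt M N E C pe μ := fun n => Nat.rec s0 (fun n t => nx t n) n
  have hs : ∀ n, s (n + 1) = nx (s n) n := fun n => rfl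
  have hmono : ∀ m n, m ≤ n → tp (s m).x (s m).x' ⊆ tp (s n).x (s n).x' := by
    intro m n hmn
    induction n, hmn using Nat.le_induction with
    | base => exact subset_rfl
    | succ n _ ih =>
      rw [hs]
      exact ih.trans (h1 (s n) n)
  refine ⟨⋃ n, tp (s n).x (s n).x', ?_, ⟨?_, ?_⟩, ?_⟩
  · intro q hq
    obtain ⟨n, hn⟩ := mem_iUnion.1 hq
    obtain ⟨i, hi⟩ := hn
    have h4 : q.1 ∈ D0 E C := by rw [hi]; exact (s n).hx i
    refine ⟨h4, ?_⟩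
    have h5 : (q.1, q.2) ∈ pe ∪ tp (s n).x (s n).x' := Or.inr ⟨i, hi⟩
    exact (d0_iff hS hb ((s n).hB.level hμ.1.le) subset_union_left h5).1 h4
  · intro x hx
    obtain ⟨y, hy⟩ := h2 (s x) x hx
    rw [← hs] at hy
    have h5 : (x, y) ∈ pe ∪ tp (s (x + 1)).x (s (x + 1)).x' := Or.inr hy
    exact ⟨y, (d0_iff hS hb ((s (x + 1)).hB.level hμ.1.le) subset_union_left h5).1 hx,
      mem_iUnion.2 ⟨x + 1, hy⟩⟩
  · intro y hy
    obtain ⟨x, hx⟩ := h3 (s y) y hy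
    rw [← hs] at hx
    have h5 : (x, y) ∈ pe ∪ tp (s (y + 1)).x (s (y + 1)).x' := Or.inr hx
    exact ⟨x, (d0_iff hS hb ((s (y + 1)).hB.level hμ.1.le) subset_union_left h5).2 hy,
      mem_iUnion.2 ⟨y + 1, hx⟩⟩
  · apply pi_of_fin
    intro Q hQ hfin
    have hex : ∃ n, Q ⊆ pe ∪ tp (s n).x (s n).x' := by
      induction Q, hfin using Set.Finite.induction_on with
      | empty => exact ⟨0, empty_subset _⟩
      | @insert q Q hq hfin ih =>
        obtain ⟨n, hn⟩ := ih ((subset_insert _ _).trans hQ)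
        rcases hQ (mem_insert _ _) with h | h
        · exact ⟨n, insert_subset (Or.inl h) hn⟩
        · obtain ⟨m, hm⟩ := mem_iUnion.1 h
          refine ⟨max m n, insert_subset (Or.inr (hmono m _ (le_max_left _ _) hm)) ?_⟩
          exact hn.trans (union_subset_union_right _ (hmono n _ (le_max_right _ _)))
    obtain ⟨n, hn⟩ := hex
    exact (s n).hB.pi.mono hn

end Pool.H5.AA
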