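import Pool.Agent.H5.AA.Def

/-!
# Transport of the cells to equivalent structures
-/

set_option autoImplicit false

namespace Pool.H5.AA

open Set Ordinal Pool.H62.VT

variable {a : ℕ → ℕ} {M N : Str a} {E : Set ℕ} {c : ℕ} {C : Fin c → Set (Finset ℕ)}
  {lt : Fin c → Finset ℕ → Finset ℕ → Prop} {B : Fin c → Pos → Prop} {pe p p' : Pos} {j : Fin c} {S T S' T' : Finset ℕ}

/-- `pe` is defined exactly on `E` -/
def Bas (E : Set ℕ) (pe : Pos) : Prop := (∀ q ∈ pe, q.1 ∈ E) ∧ ∀ x ∈ E, ∃ y, (x, y) ∈ pe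

theorem mt_comp {X Y Z : Set ℕ} (h : Mt p X Y) (h' : Mt p' Z Y) : Mt (pcomp p (pinv p')) X Z := by
  constructor
  · intro x hx
    obtain ⟨y, hy, h1⟩ := h.1 x hx
    obtain ⟨z, hz, h2⟩ := h'.2 y hy
    exact ⟨z, hz, y, h1, h2⟩
  · intro z hz
    obtain ⟨y, hy, h2⟩ := h'.1 z hz
    obtain ⟨x, hx, h1⟩ := h.2 y hy
    exact ⟨x, hx, y, h1, h2⟩

theorem id_comp (hb : Bas E pe) (h : pe ⊆ p) (h' : pe ⊆ p') : idOn E ⊆ pcomp p (pinv p') := by
  rintro ⟨x, y⟩ ⟨hx, hxy⟩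
  obtain ⟨z, hz⟩ := hb.2 x hx
  simp only at hxy hx
  subst hxy
  exact ⟨z, h hz, h' hz⟩

theorem mt_inj (hp : PI M N p) (h : Mt p (S : Set ℕ) (S' : Set ℕ)) (h' : Mt p (S : Set ℕ) (T' : Set ℕ)) :
    S' = T' := by
  ext y
  constructor
  · intro hy
    obtain ⟨x, hx, h1⟩ := h.2 y hy
    obtain ⟨z, hz, h2⟩ := h'.1 x hx
    have : y = z := (hp.2 _ h1 _ h2).1 rfl
    rw [this]
    exact hz
  · intro hy
    obtain ⟨x, hx, h1⟩ := h'.2 y hy
    obtain ⟨z, hz, h2⟩ := h.1 x hx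
    have : y = z := (hp.2 _ h1 _ h2).1 rfl
    rw [this]
    exact hz

/-- being a cell is respected -/
theorem cc_iff (hS : ST M E C lt B) (hb : Bas E pe) (hB : BF M univ N univ ω p) (hp : pe ⊆ p)
    (hm : Mt p (S : Set ℕ) (S' : Set ℕ)) : S' ∈ CC M N (C j) pe ↔ S ∈ C j := by
  constructor
  · rintro ⟨S1, hS1, p1, hB1, hp1, hm1⟩
    exact hS.reco j S1 hS1 S _ (hB1.trans hB.symm) (id_comp hb hp1 hp) (mt_comp hm1 hm)
  · intro h
    exact ⟨S, h, p, hB, hp, hm⟩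

/-- the order of cells is respected -/
theorem lc_iff (hS : ST M E C lt B) (hb : Bas E pe) (hB : BF M univ N univ ω p) (hp : pe ⊆ p)
    (hSC : S ∈ C j) (hTC : T ∈ C j)
    (hm : Mt p (S : Set ℕ) (S' : Set ℕ)) (hm' : Mt p (T : Set ℕ) (T' : Set ℕ)) :
    LC M N (C j) (lt j) pe S' T' ↔ lt j S T := by
  constructor
  · rintro ⟨S1, hS1, T1, hT1, p1, hB1, hp1, hm1, hm1', hlt⟩
    exact hS.ord j S1 hS1 T1 hT1 S T _ (hB1.trans hB.symm) (id_comp hb hp1 hp) (mt_comp hm1 hm)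
      (mt_comp hm1' hm') hlt
  · intro h
    exact ⟨S, hSC, T, hTC, p, hB, hp, hm, hm', h⟩

/-- partners of finite sets, backwards -/
theorem back_set (hB : BF M univ N univ (ω + ω) p) (F : Finset ℕ) :
    ∃ (f : ℕ → ℕ), BF M univ N univ ω (p ∪ pinv (gr f (F : Set ℕ))) ∧
      ∀ S' : Finset ℕ, S' ⊆ F → Mt (p ∪ pinv (gr f (F : Set ℕ))) ((S'.image f : Finset ℕ) : Set ℕ)
        (S' : Set ℕ) := by
  obtain ⟨f, -, h⟩ := hB.back_omega F.finite_toSet (subset_univ _) 0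
  simp only [Nat.cast_zero, add_zero] at h
  refine ⟨f, h, fun S' hS' => ⟨?_, ?_⟩⟩
  · intro x hx
    rw [Finset.coe_image] at hx
    obtain ⟨y, hy, rfl⟩ := hx
    exact ⟨y, hy, Or.inr ⟨hS' hy, rfl⟩⟩
  · intro y hy
    refine ⟨f y, ?_, Or.inr ⟨hS' hy, rfl⟩⟩
    rw [Finset.coe_image]
    exact mem_image_of_mem f hy

/-- partners of finite sets, forwards -/
theorem forth_set {β : Ordinal.{0}} (hB : BF M univ N univ (β + ω) p) (F : Finset ℕ) :
    ∃ (f : ℕ → ℕ), BF M univ N univ β (p ∪ gr f (F : Set ℕ)) ∧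
      ∀ S : Finset ℕ, S ⊆ F → Mt (p ∪ gr f (F : Set ℕ)) (S : Set ℕ)
        ((S.image f : Finset ℕ) : Set ℕ) := by
  obtain ⟨f, -, h⟩ := hB.forth_omega F.finite_toSet (subset_univ _) 0
  simp only [Nat.cast_zero, add_zero] at h
  refine ⟨f, h, fun S' hS' => ⟨?_, ?_⟩⟩
  · intro x hx
    refine ⟨f x, ?_, Or.inr ⟨hS' hx, rfl⟩⟩
    rw [Finset.coe_image]
    exact mem_image_of_mem f hx
  · intro y hy
    rw [Finset.coe_image] at hy
    obtain ⟨x, hx, rfl⟩ := hy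
    exact ⟨x, hx, Or.inr ⟨hS' hx, rfl⟩⟩

theorem back_set' {β : Ordinal.{0}} (hB : BF M univ N univ (β + ω) p) (F : Finset ℕ) :
    ∃ (f : ℕ → ℕ), BF M univ N univ β (p ∪ pinv (gr f (F : Set ℕ))) ∧
      ∀ S' : Finset ℕ, S' ⊆ F → Mt (p ∪ pinv (gr f (F : Set ℕ))) ((S'.image f : Finset ℕ) : Set ℕ)
        (S' : Set ℕ) := by
  obtain ⟨f, -, h⟩ := hB.back_omega F.finite_toSet (subset_univ _) 0
  simp only [Nat.cast_zero, add_zero] at h
  refine ⟨f, h, fun S' hS' => ⟨?_, ?_⟩⟩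
  · intro x hx
    rw [Finset.coe_image] at hx
    obtain ⟨y, hy, rfl⟩ := hx
    exact ⟨y, hy, Or.inr ⟨hS' hy, rfl⟩⟩
  · intro y hy
    refine ⟨f y, ?_, Or.inr ⟨hS' hy, rfl⟩⟩
    rw [Finset.coe_image]
    exact mem_image_of_mem f hy

section props

variable (hS : ST M E C lt B) (hb : Bas E pe) (hB : BF M univ N univ (ω + ω) pe)

include hS hb hB

/-- transported cells are disjoint -/
theorem cc_dj {i j : Fin c} (h1 : S' ∈ CC M N (C i) pe) (h2 : T' ∈ CC M N (C j) pe) {x' : ℕ}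
    (hx : x' ∈ S') (hx2 : x' ∈ T') : i = j ∧ S' = T' := by
  obtain ⟨f, hf, hm⟩ := back_set hB (S' ∪ T')
  have m1 := hm S' Finset.subset_union_left
  have m2 := hm T' Finset.subset_union_right
  have c1 : S'.image f ∈ C i := (cc_iff hS hb hf subset_union_left m1).1 h1
  have c2 : T'.image f ∈ C j := (cc_iff hS hb hf subset_union_left m2).1 h2
  obtain ⟨h3, h4⟩ := hS.dj i j _ _ c1 c2 ⟨f x', Finset.mem_image_of_mem f hx,
    Finset.mem_image_of_mem f hx2⟩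
  refine ⟨h3, ?_⟩
  rw [← h4] at m2
  exact mt_inj hf.pi m1 m2

theorem cc_ne (h1 : S' ∈ CC M N (C j) pe) : S'.Nonempty := by
  obtain ⟨f, hf, hm⟩ := back_set hB S'
  have c1 : S'.image f ∈ C j := (cc_iff hS hb hf subset_union_left (hm S' subset_rfl)).1 h1
  have := hS.ne j _ c1
  rwa [Finset.image_nonempty] at this

theorem cc_dE (h1 : S' ∈ CC M N (C j) pe) {x' : ℕ} (hx : x' ∈ S') (x : ℕ) : (x, x') ∉ pe := by
  intro h2
  obtain ⟨f, hf, hm⟩ := back_set hB S'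
  have c1 : S'.image f ∈ C j := (cc_iff hS hb hf subset_union_left (hm S' subset_rfl)).1 h1
  have h3 : (f x', x') ∈ pe ∪ pinv (gr f (S' : Set ℕ)) := Or.inr ⟨hx, rfl⟩
  have h4 : x = f x' := (hf.pi.2 _ (Or.inl h2) _ h3).2 rfl
  have h5 := hS.dE j _ c1 (f x') (Finset.mem_image_of_mem f hx)
  apply h5
  rw [← h4]
  exact hb.1 _ h2

theorem lc_irr (h1 : S' ∈ CC M N (C j) pe) : ¬ LC M N (C j) (lt j) pe S' S' := by
  obtain ⟨f, hf, hm⟩ := back_set hB S'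
  have c1 : S'.image f ∈ C j := (cc_iff hS hb hf subset_union_left (hm S' subset_rfl)).1 h1
  rw [lc_iff hS hb hf subset_union_left c1 c1 (hm S' subset_rfl) (hm S' subset_rfl)]
  exact hS.irr j _ c1

theorem lc_tr {U' : Finset ℕ} (h1 : S' ∈ CC M N (C j) pe) (h2 : T' ∈ CC M N (C j) pe)
    (h3 : U' ∈ CC M N (C j) pe) (h4 : LC M N (C j) (lt j) pe S' T')
    (h5 : LC M N (C j) (lt j) pe T' U') : LC M N (C j) (lt j) pe S' U' := by
  obtain ⟨f, hf, hm⟩ := back_set hB (S' ∪ T' ∪ U')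
  have m1 := hm S' (Finset.subset_union_left.trans Finset.subset_union_left)
  have m2 := hm T' (Finset.subset_union_right.trans Finset.subset_union_left)
  have m3 := hm U' Finset.subset_union_right
  have c1 := (cc_iff hS hb hf subset_union_left m1).1 h1
  have c2 := (cc_iff hS hb hf subset_union_left m2).1 h2
  have c3 := (cc_iff hS hb hf subset_union_left m3).1 h3
  rw [lc_iff hS hb hf subset_union_left c1 c2 m1 m2] at h4
  rw [lc_iff hS hb hf subset_union_left c2 c3 m2 m3] at h5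
  rw [lc_iff hS hb hf subset_union_left c1 c3 m1 m3]
  exact hS.tr j _ c1 _ c2 _ c3 h4 h5

theorem lc_tot (h1 : S' ∈ CC M N (C j) pe) (h2 : T' ∈ CC M N (C j) pe) (h3 : S' ≠ T') :
    LC M N (C j) (lt j) pe S' T' ∨ LC M N (C j) (lt j) pe T' S' := by
  obtain ⟨f, hf, hm⟩ := back_set hB (S' ∪ T')
  have m1 := hm S' Finset.subset_union_left
  have m2 := hm T' Finset.subset_union_right
  have c1 := (cc_iff hS hb hf subset_union_left m1).1 h1
  have c2 := (cc_iff hS hb hf subset_union_left m2).1 h2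
  have hne : S'.image f ≠ T'.image f := by
    intro h
    rw [← h] at m2
    exact h3 (mt_inj hf.pi m1 m2)
  rw [lc_iff hS hb hf subset_union_left c1 c2 m1 m2, lc_iff hS hb hf subset_union_left c2 c1 m2 m1]
  exact hS.tot j _ c1 _ c2 hne

end props

/-- the rest, transported to `N` -/
def D0' (M N : Str a) (C : Fin c → Set (Finset ℕ)) (pe : Pos) : Set ℕ :=
  {x' | (∀ x, (x, x') ∉ pe) ∧ ∀ j, ∀ S' ∈ CC M N (C j) pe, x' ∉ S'}

theorem d0_iff (hS : ST M E C lt B) (hb : Bas E pe) (hB : BF M univ N univ (ω + ω) p) (hp : pe ⊆ p)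
    {x x' : ℕ} (hx : (x, x') ∈ p) : x ∈ D0 E C ↔ x' ∈ D0' M N C pe := by
  constructor
  · rintro ⟨h1, h2⟩
    refine ⟨?_, ?_⟩
    · intro y hy
      have : x = y := (hB.pi.2 _ hx _ (hp hy)).2 rfl
      exact h1 (this ▸ hb.1 _ hy)
    · intro j S' hS' hx'
      obtain ⟨f, hf, hm⟩ := back_set hB S'
      have c1 : S'.image f ∈ C j :=
        (cc_iff hS hb hf (hp.trans subset_union_left) (hm S' subset_rfl)).1 hS'
      have h3 : (f x', x') ∈ p ∪ pinv (gr f (S' : Set ℕ)) := Or.inr ⟨hx', rfl⟩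
      have h4 : x = f x' := (hf.pi.2 _ (Or.inl hx) _ h3).2 rfl
      exact h2 j _ c1 (h4 ▸ Finset.mem_image_of_mem f hx')
  · rintro ⟨h1, h2⟩
    refine ⟨?_, ?_⟩
    · intro hxE
      obtain ⟨y, hy⟩ := hb.2 x hxE
      have : x' = y := (hB.pi.2 _ hx _ (hp hy)).1 rfl
      exact h1 x (this ▸ hy)
    · intro j S hSC hxS
      obtain ⟨f, hf, hm⟩ := forth_set hB S
      have c1 : S.image f ∈ CC M N (C j) pe :=
        (cc_iff hS hb hf (hp.trans subset_union_left) (hm S subset_rfl)).2 hSC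
      have h3 : (x, f x) ∈ p ∪ gr f (S : Set ℕ) := Or.inr ⟨hxS, rfl⟩
      have h4 : x' = f x := (hf.pi.2 _ (Or.inl hx) _ h3).1 rfl
      exact h2 j _ c1 (h4 ▸ Finset.mem_image_of_mem f hxS)

end Pool.H5.AA
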