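import Pool.Agent.H62.VT.BFBasic

/-!
# Structures composed of chains of cells and a part with few orbits: definitions

`M` is a structure, `E` a finite set of points, `C j` (`j < c`) families of pairwise disjoint finite
sets (cells), linearly ordered by `lt j`. The points outside `E` and the cells form `D0`.
-/

set_option autoImplicit false

namespace Pool.H5.AA

open Set Ordinal Pool.H62.VT

variable {a : ℕ → ℕ}

/-- `b` is a matching of the finite sets `S` and `S'` (and nothing else) -/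
def MtS (b : Pos) (S S' : Finset ℕ) : Prop :=
  (∀ q ∈ b, q.1 ∈ S ∧ q.2 ∈ S') ∧ Mt b (S : Set ℕ) (S' : Set ℕ)

/-- the points outside `E` and outside all cells -/
def D0 {c : ℕ} (E : Set ℕ) (C : Fin c → Set (Finset ℕ)) : Set ℕ :=
  {x | x ∉ E ∧ ∀ j, ∀ S ∈ C j, x ∉ S}

/-- The structure `M` is composed of `E`, the chains of cells `C j` and the rest. `B j` is the set of
the admissible matchings of cells of the family `j`. -/
structure ST (M : Str a) (E : Set ℕ) {c : ℕ} (C : Fin c → Set (Finset ℕ))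
    (lt : Fin c → Finset ℕ → Finset ℕ → Prop) (B : Fin c → Pos → Prop) : Prop where
  finE : E.Finite
  ne : ∀ j, ∀ S ∈ C j, S.Nonempty
  dE : ∀ j, ∀ S ∈ C j, ∀ x ∈ S, x ∉ E
  dj : ∀ i j S S', S ∈ C i → S' ∈ C j → (∃ x, x ∈ S ∧ x ∈ S') → i = j ∧ S = S'
  irr : ∀ j, ∀ S ∈ C j, ¬ lt j S S
  tr : ∀ j, ∀ S ∈ C j, ∀ T ∈ C j, ∀ U ∈ C j, lt j S T → lt j T U → lt j S U
  tot : ∀ j, ∀ S ∈ C j, ∀ T ∈ C j, S ≠ T → lt j S T ∨ lt j T S
  /-- the set of cells is invariant under the equivalence of level `ω` -/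
  reco : ∀ j, ∀ S ∈ C j, ∀ (S' : Finset ℕ) (p : Pos), BF M univ M univ ω p → idOn E ⊆ p →
    Mt p (S : Set ℕ) (S' : Set ℕ) → S' ∈ C j
  /-- the order of cells is invariant under the equivalence of level `ω` -/
  ord : ∀ j, ∀ S ∈ C j, ∀ T ∈ C j, ∀ (S' T' : Finset ℕ) (p : Pos), BF M univ M univ ω p →
    idOn E ⊆ p → Mt p (S : Set ℕ) (S' : Set ℕ) → Mt p (T : Set ℕ) (T' : Set ℕ) → lt j S T → lt j S' T'
  /-- all cells of a family look alike -/
  hom : ∀ j, ∀ S ∈ C j, ∀ S' ∈ C j, ∃ b : Pos, MtS b S S' ∧ B j b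
  /-- admissible matchings can be composed -/
  comp : ∀ j, ∀ S ∈ C j, ∀ S' ∈ C j, ∀ S'' ∈ C j, ∀ b b' : Pos, MtS b S S' → MtS b' S' S'' →
    B j b → B j b' → B j (pcomp b b')
  /-- the equivalence of level `ω` gives admissible matchings -/
  lab : ∀ j, ∀ S ∈ C j, ∀ S' ∈ C j, ∀ p : Pos, BF M univ M univ ω p → idOn E ⊆ p →
    Mt p (S : Set ℕ) (S' : Set ℕ) → B j {q | q ∈ p ∧ q.1 ∈ S ∧ q.2 ∈ S'}
  /-- cells can be moved in an order preserving way, independently of the rest -/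
  free : ∀ (p0 : Pos) (I : Type) (j : I → Fin c) (S S' : I → Finset ℕ) (b : I → Pos),
    p0.Finite → Finite I → PI M M (idOn E ∪ p0) → (∀ q ∈ p0, q.1 ∈ D0 E C ∧ q.2 ∈ D0 E C) →
    (∀ i, S i ∈ C (j i) ∧ S' i ∈ C (j i) ∧ MtS (b i) (S i) (S' i) ∧ B (j i) (b i)) →
    (∀ i i', i ≠ i' → S i ≠ S i') →
    (∀ i i', j i = j i' → lt (j i) (S i) (S i') → lt (j i) (S' i) (S' i')) →
    PI M M (idOn E ∪ p0 ∪ ⋃ i, b i)
  /-- there are finitely many orbits of tuples of the rest over `E` -/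
  cel : ∀ k : ℕ, ∃ R : Set (Fin k → ℕ), R.Finite ∧ ∀ x : Fin k → ℕ, (∀ i, x i ∈ D0 E C) →
    ∃ y ∈ R, Iso M univ M univ (idOn E ∪ {q | ∃ i, q = (x i, y i)})

/-- the family of cells transported to `N` -/
def CC (M N : Str a) (C : Set (Finset ℕ)) (pe : Pos) : Set (Finset ℕ) :=
  {S' | ∃ S ∈ C, ∃ p : Pos, BF M univ N univ ω p ∧ pe ⊆ p ∧ Mt p (S : Set ℕ) (S' : Set ℕ)}

/-- the order of cells transported to `N` -/
def LC (M N : Str a) (C : Set (Finset ℕ)) (lt : Finset ℕ → Finset ℕ → Prop) (pe : Pos)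
    (S' T' : Finset ℕ) : Prop :=
  ∃ S ∈ C, ∃ T ∈ C, ∃ p : Pos, BF M univ N univ ω p ∧ pe ⊆ p ∧ Mt p (S : Set ℕ) (S' : Set ℕ) ∧
    Mt p (T : Set ℕ) (T' : Set ℕ) ∧ lt S T

/-- the admissible matchings of the cell `S` with the transported cell `S'` -/
def BN (M N : Str a) (C : Set (Finset ℕ)) (B : Pos → Prop) (pe : Pos) (S S' : Finset ℕ) (b : Pos) :
    Prop :=
  ∃ S1 ∈ C, ∃ b1 p1 : Pos, MtS b1 S S1 ∧ B b1 ∧ BF M univ N univ ω p1 ∧ pe ⊆ p1 ∧
    Mt p1 (S1 : Set ℕ) (S' : Set ℕ) ∧ b = {q | q.2 ∈ S' ∧ ∃ y, (q.1, y) ∈ b1 ∧ (y, q.2) ∈ p1}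

end Pool.H5.AA
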