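import Pool.Agent.H5.AA.Cop

/-!
# Independent moves of cells between equivalent structures
-/

set_option autoImplicit false

namespace Pool.H5.AA

open Set Ordinal Pool.H62.VT

variable {a : ℕ → ℕ} {M N : Str a} {E : Set ℕ} {c : ℕ} {C : Fin c → Set (Finset ℕ)}
  {lt : Fin c → Finset ℕ → Finset ℕ → Prop} {B : Fin c → Pos → Prop} {pe p p' : Pos} {j : Fin c} {S T S' T' : Finset ℕ}

/-- a position is a partial isomorphism if all its finite parts are -/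
theorem pi_of_fin {P : Pos} (h : ∀ Q : Pos, Q ⊆ P → Q.Finite → PI M N Q) : PI M N P := by
  constructor
  · intro n t ht
    exact (h (range t) (by rintro _ ⟨i, rfl⟩; exact ht i) (finite_range t)).1 n t
      fun i => mem_range_self i
  · intro q hq r hr
    exact (h {q, r} (by rintro x (rfl | rfl) <;> assumption) (by simp)).2 q (by simp) r (by simp)

/-- pulling back an admissible matching -/
theorem pull_adm (hS : ST M E C lt B) (hb : Bas E pe) {f : ℕ → ℕ} {P1 : Pos} {b : Pos}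
    (hf : BF M univ N univ ω P1) (hsub : pe ⊆ P1) (hP : ∀ x ∈ S', (f x, x) ∈ P1)
    (hSC : S ∈ C j) (hT : S'.image f ∈ C j) (h : BN M N (C j) (B j) pe S S' b) :
    B j {r | ∃ q ∈ b, r = (q.1, f q.2)} := by
  obtain ⟨S1, hS1, b1, p1, hb1, hB1, hp1, hpp, hm, rfl⟩ := h
  have hm2 : Mt P1 ((S'.image f : Finset ℕ) : Set ℕ) (S' : Set ℕ) := by
    constructor
    · intro x hx
      obtain ⟨y, hy, rfl⟩ := Finset.mem_image.1 (Finset.mem_coe.1 hx)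
      exact ⟨y, hy, hP y hy⟩
    · intro y hy
      exact ⟨f y, Finset.mem_coe.2 (Finset.mem_image_of_mem f hy), hP y hy⟩
  have h1 := hS.lab j S1 hS1 _ hT (pcomp p1 (pinv P1)) (hp1.trans hf.symm) (id_comp hb hpp hsub)
    (mt_comp hm hm2)
  have hM : MtS {q | q ∈ pcomp p1 (pinv P1) ∧ q.1 ∈ S1 ∧ q.2 ∈ S'.image f} S1 (S'.image f) := by
    refine ⟨fun q hq => hq.2, ?_, ?_⟩
    · intro x hx
      obtain ⟨y, hy, hxy⟩ := (mt_comp hm hm2).1 x hx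
      exact ⟨y, hy, hxy, hx, hy⟩
    · intro y hy
      obtain ⟨x, hx, hxy⟩ := (mt_comp hm hm2).2 y hy
      exact ⟨x, hx, hxy, hx, hy⟩
  have h2 := hS.comp j S hSC S1 hS1 _ hT b1 _ hb1 hM hB1 h1
  convert h2 using 1
  ext r
  constructor
  · rintro ⟨q, ⟨hq, y, hy, hyq⟩, rfl⟩
    exact ⟨y, hy, ⟨q.2, hyq, hP q.2 hq⟩, (hb1.1 _ hy).2, Finset.mem_image_of_mem f hq⟩
  · rintro ⟨y, hy, ⟨s, hys, hs⟩, hyS, hr⟩
    obtain ⟨s', hs', hsr⟩ := Finset.mem_image.1 hr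
    have e1 : s = s' := by
      have h3 : (r.2, s) ∈ P1 := hs
      have h4 : (r.2, s') ∈ P1 := hsr ▸ hP s' hs'
      exact (hf.pi.2 _ h3 _ h4).1 rfl
    subst e1
    exact ⟨(r.1, s), ⟨hs', y, hy, hys⟩, Prod.ext rfl hsr.symm⟩

theorem free_fin (hS : ST M E C lt B) (hb : Bas E pe) (hB : BF M univ N univ (ω + ω + ω) pe)
    (p0 : Pos) (I : Type) (j : I → Fin c) (S S' : I → Finset ℕ) (b : I → Pos) (hI : Finite I)
    (hfin : p0.Finite) (h0 : PI M N (pe ∪ p0))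
    (h1 : ∀ q ∈ p0, q.1 ∈ D0 E C ∧ q.2 ∈ D0' M N C pe)
    (h2 : ∀ i, S i ∈ C (j i) ∧ S' i ∈ CC M N (C (j i)) pe ∧ MtS (b i) (S i) (S' i) ∧
      BN M N (C (j i)) (B (j i)) pe (S i) (S' i) (b i))
    (h3 : ∀ i i', i ≠ i' → S i ≠ S i')
    (h4 : ∀ i i', j i = j i' → lt (j i) (S i) (S i') →
      LC M N (C (j i)) (lt (j i)) pe (S' i) (S' i')) :
    PI M N (pe ∪ p0 ∪ ⋃ i, b i) := by
  classical
  have hF1 : (ran p0).Finite := by
    refine (hfin.image Prod.snd).subset ?_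
    rintro w ⟨v, hv⟩
    exact ⟨(v, w), hv, rfl⟩
  have hF2 : (⋃ i, (S' i : Set ℕ)).Finite := finite_iUnion fun i => (S' i).finite_toSet
  set F : Finset ℕ := (hF1.union hF2).toFinset with hF
  have hFm : ∀ x, x ∈ F ↔ x ∈ ran p0 ∨ ∃ i, x ∈ S' i := by
    intro x
    rw [hF, Set.Finite.mem_toFinset, mem_union, mem_iUnion]
    rfl
  obtain ⟨f, hf, hm⟩ := back_set' (β := ω + ω) hB F
  set P1 : Pos := pe ∪ pinv (gr f (F : Set ℕ)) with hP1
  have hsub : pe ⊆ P1 := subset_union_left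
  have hfw : BF M univ N univ ω P1 := hf.level le_self_add
  have hP : ∀ x ∈ F, (f x, x) ∈ P1 := fun x hx => Or.inr ⟨hx, rfl⟩
  have hSF : ∀ i, S' i ⊆ F := fun i x hx => (hFm x).2 (Or.inr ⟨i, hx⟩)
  have hT : ∀ i, (S' i).image f ∈ C (j i) := fun i =>
    (cc_iff hS hb hfw hsub (hm (S' i) (hSF i))).1 (h2 i).2.1
  -- the positions in `M`
  set q0 : Pos := {r | ∃ q ∈ p0, r = (q.1, f q.2)} with hq0
  set bM : I → Pos := fun i => {r | ∃ q ∈ b i, r = (q.1, f q.2)} with hbM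
  have hq0fin : q0.Finite := by
    refine (hfin.image fun q : ℕ × ℕ => (q.1, f q.2)).subset ?_
    rintro r ⟨q, hq, rfl⟩
    exact ⟨q, hq, rfl⟩
  have key : ∀ Q : Pos, PI M N (pe ∪ Q) → (∀ q ∈ Q, q.2 ∈ F) →
      PI M M (idOn E ∪ {r | ∃ q ∈ Q, r = (q.1, f q.2)}) := by
    intro Q hQ hQF
    refine (hQ.trans hf.pi.symm).mono ?_
    rintro r (hr | ⟨q, hq, rfl⟩)
    · exact id_comp hb subset_union_left hsub hr
    · exact ⟨q.2, Or.inr hq, hP q.2 (hQF q hq)⟩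
  have hmain := hS.free q0 I j S (fun i => (S' i).image f) bM hq0fin hI
    (key p0 h0 fun q hq => (hFm _).2 (Or.inl ⟨q.1, hq⟩))
    (by
      rintro r ⟨q, hq, rfl⟩
      refine ⟨(h1 q hq).1, ?_⟩
      exact (d0_iff hS hb hf hsub (hP q.2 ((hFm _).2 (Or.inl ⟨q.1, hq⟩)))).2 (h1 q hq).2)
    (by
      intro i
      obtain ⟨g1, g2, g3, g4⟩ := h2 i
      refine ⟨g1, hT i, ⟨?_, ?_, ?_⟩,
        pull_adm hS hb hfw hsub (fun x hx => hP x (hSF i hx)) g1 (hT i) g4⟩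
      · rintro r ⟨q, hq, rfl⟩
        exact ⟨(g3.1 q hq).1, Finset.mem_image_of_mem f (g3.1 q hq).2⟩
      · intro x hx
        obtain ⟨y, hy, h5⟩ := g3.2.1 x hx
        exact ⟨f y, Finset.mem_coe.2 (Finset.mem_image_of_mem f hy), (x, y), h5, rfl⟩
      · intro y hy
        obtain ⟨y', hy', rfl⟩ := Finset.mem_image.1 (Finset.mem_coe.1 hy)
        obtain ⟨x, hx, h5⟩ := g3.2.2 y' hy'
        exact ⟨x, hx, (x, y'), h5, rfl⟩)
    h3
    (by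
      intro i i' hij hlt
      have h5 := h4 i i' hij hlt
      have hT' : (S' i').image f ∈ C (j i) := hij ▸ hT i'
      exact (lc_iff hS hb hfw hsub (hT i) hT' (hm (S' i) (hSF i)) (hm (S' i') (hSF i'))).1 h5)
  refine (hmain.trans hf.pi).mono ?_
  rintro q ((hq | hq) | hq)
  · exact ⟨q.1, Or.inl (Or.inl ⟨hb.1 q hq, rfl⟩), hsub hq⟩
  · exact ⟨f q.2, Or.inl (Or.inr ⟨q, hq, rfl⟩), hP q.2 ((hFm _).2 (Or.inl ⟨q.1, hq⟩))⟩
  · obtain ⟨i, hi⟩ := mem_iUnion.1 hq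
    exact ⟨f q.2, Or.inr (mem_iUnion.2 ⟨i, q, hi, rfl⟩), hP q.2 (hSF i ((h2 i).2.2.1.1 q hi).2)⟩

/-- independent moves, infinitely many at once -/
theorem free_N (hS : ST M E C lt B) (hb : Bas E pe) (hB : BF M univ N univ (ω + ω + ω) pe)
    (p0 : Pos) (I : Type) (j : I → Fin c) (S S' : I → Finset ℕ) (b : I → Pos)
    (h0 : PI M N (pe ∪ p0))
    (h1 : ∀ q ∈ p0, q.1 ∈ D0 E C ∧ q.2 ∈ D0' M N C pe)
    (h2 : ∀ i, S i ∈ C (j i) ∧ S' i ∈ CC M N (C (j i)) pe ∧ MtS (b i) (S i) (S' i) ∧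
      BN M N (C (j i)) (B (j i)) pe (S i) (S' i) (b i))
    (h3 : ∀ i i', i ≠ i' → S i ≠ S i')
    (h4 : ∀ i i', j i = j i' → lt (j i) (S i) (S i') →
      LC M N (C (j i)) (lt (j i)) pe (S' i) (S' i')) :
    PI M N (pe ∪ p0 ∪ ⋃ i, b i) := by
  classical
  apply pi_of_fin
  intro Q hQ hfin
  -- the indices used by `Q`
  have hex : ∀ q : Q, ∃ J : Set I, J.Finite ∧ q.1 ∈ pe ∪ p0 ∪ ⋃ i ∈ J, b i := by
    rintro ⟨q, hq⟩
    rcases hQ hq with h | h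
    · exact ⟨∅, finite_empty, Or.inl h⟩
    · obtain ⟨i, hi⟩ := mem_iUnion.1 h
      exact ⟨{i}, finite_singleton i, Or.inr (mem_iUnion.2 ⟨i, mem_iUnion.2 ⟨rfl, hi⟩⟩)⟩
  choose J hJ hJ2 using hex
  have hQf : Finite Q := hfin
  have hJJ : (⋃ q, J q).Finite := finite_iUnion hJ
  have hIf : Finite (⋃ q, J q : Set I) := hJJ
  have h5 := free_fin hS hb hB (Q ∩ p0) (⋃ q, J q : Set I) (fun i => j i.1) (fun i => S i.1)
    (fun i => S' i.1) (fun i => b i.1) hIf (hfin.inter_of_left _)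
    (h0.mono (union_subset_union_right _ inter_subset_right)) (fun q hq => h1 q hq.2)
    (fun i => h2 i.1) (fun i i' h => h3 i.1 i'.1 fun h' => h (Subtype.ext h'))
    (fun i i' => h4 i.1 i'.1)
  refine h5.mono ?_
  intro q hq
  rcases hJ2 ⟨q, hq⟩ with (h | h) | h
  · exact Or.inl (Or.inl h)
  · exact Or.inl (Or.inr ⟨hq, h⟩)
  · obtain ⟨i, hi⟩ := mem_iUnion.1 h
    obtain ⟨hi1, hi2⟩ := mem_iUnion.1 hi
    exact Or.inr (mem_iUnion.2 ⟨⟨i, mem_iUnion.2 ⟨_, hi1⟩⟩, hi2⟩)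

end Pool.H5.AA
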